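import Pool.Agent.TH45.FPR.Final

/-!
# Excellent regular rings of prime characteristic are F-pure regular

Let `R` be a regular (Noetherian) ring of prime characteristic `p` such that for every prime `P`
the regular locus of `R ⧸ P` is open.  Every excellent regular ring has this property: it is J-2,
and `R ⧸ P` is a finitely generated `R`-algebra.  Then for every `c` outside the minimal primes
there is `e ≥ 1` such that `R → F^e_* R`, `1 ↦ c`, is pure.

Proof. Near a prime `P` with parameters `x_1, …, x_h` of `R_P` some multiple of `c` is
`v (x_1 ⋯ x_h)^a` modulo `(x_i^(a+1))`, with `v` outside `P`; at the primes `Q ⊇ P` off a closed set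
the `x_i` are part of a regular system of parameters, so `c` is not in the Frobenius power
`Q^[q] R_Q` as soon as `q > a`.  By Noetherian induction one `q` works for all primes.  Finally
`F^e_* R_Q` is free modulo the ideals `(z_i^t)`, `z` a regular system of parameters, on any lift of a
basis of `F^e_* R_Q / Q F^e_* R_Q`, which gives purity of `1 ↦ c` when `c ∉ Q^[q] R_Q`.
-/

set_option autoImplicit false

namespace Pool.Agent.TH45.Withdrawn.ExcellentRegular

open Pool.Agent.TH45.FPR

universe u

/-- `R` (of characteristic `p`) is F-pure regular: for every `c` lying in no minimal prime of `R`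
there is `e ≥ 1` such that the `R`-linear map `R → F^e_* R`, `1 ↦ c`, is pure. -/
def IsFPureRegular (p : ℕ) (R : Type u) [CommRing R] [ExpChar R p] : Prop :=
  ∀ c : R, (∀ P ∈ minimalPrimes R, c ∉ P) → ∃ e : ℕ, 1 ≤ e ∧ IsPureMap (lam p e c)

/-- Every regular ring of prime characteristic such that the regular locus of `R ⧸ P` is open for
all primes `P` (in particular, every excellent regular ring of prime characteristic) is F-pure
regular. -/
theorem result (p : ℕ) [Fact p.Prime] (R : Type u) [CommRing R] [CharP R p] [IsRegularRing R]
    (hJ : ∀ P : Ideal R, P.IsPrime → IsOpen (regularLocus (R ⧸ P))) : IsFPureRegular p R :=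
  fun c hc => final p hJ c hc

end Pool.Agent.TH45.Withdrawn.ExcellentRegular
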